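import Pool.Agent.K300.Prob2
import Pool.Agent.K300.Det3

/-! Kostlan systems: basic definitions. -/

open Set MeasureTheory ProbabilityTheory Filter Topology

namespace Pool.Agent.Y300.KS

open Pool.Agent.K300

/-- the scale `⌊√n⌋` -/
def ell (n : ℕ) : ℕ := Nat.sqrt n

/-- trinomial probabilities with the parameters `I/n, J/n, (n-I-J)/n` -/
noncomputable def pr (n I J : ℕ) (m : ℕ × ℕ) : ℝ :=
  (n.factorial : ℝ) / (m.1.factorial * m.2.factorial * (n - m.1 - m.2).factorial) *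
    (((I:ℝ) / n) ^ m.1 * ((J:ℝ) / n) ^ m.2 * (((n - I - J : ℕ) : ℝ) / n) ^ (n - m.1 - m.2))

/-- their square roots -/
noncomputable def sp (n I J : ℕ) (m : ℕ × ℕ) : ℝ := √(pr n I J m)

/-- the normalised shift of an exponent -/
noncomputable def sx (n I i : ℕ) : ℝ := ((i:ℝ) - I) / ell n

/-- the absolute shift -/
noncomputable def ab (n I J : ℕ) (m : ℕ × ℕ) : ℝ := |sx n I m.1| + |sx n J m.2|

/-- the central region -/
structure Cen (n I J : ℕ) : Prop where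
  hI : n ≤ 5 * I
  hJ : n ≤ 5 * J
  hK : 5 * (I + J) ≤ 4 * n

/-- the normalised field in the local coordinates -/
noncomputable def loc (n I J : ℕ) (A : Finset (ℕ × ℕ)) (y : ℕ × ℕ → ℝ) (u v : ℝ) : ℝ :=
  ∑ m ∈ A, y m * (sp n I J m * Real.exp (sx n I m.1 * u + sx n J m.2 * v))

/-- Taylor coefficients -/
noncomputable def co (n I J : ℕ) (B : ℝ) (k l : ℕ) (m : ℕ × ℕ) : ℝ :=
  sp n I J m * ((2 * B * sx n I m.1) ^ k / k.factorial *
    ((2 * B * sx n J m.2) ^ l / l.factorial))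

/-- the energy -/
noncomputable def enr (n I J : ℕ) (B : ℝ) (K : ℕ) (A : Finset (ℕ × ℕ)) (y : ℕ × ℕ → ℝ) : ℝ :=
  ∑ k ∈ Finset.range K, ∑ l ∈ Finset.range K, (∑ m ∈ A, co n I J B k l m * y m) ^ 2

/-- indices of the blocks: the exponents and the parity -/
abbrev Cx (N : ℕ) := Fin N × Fin N × Fin 2

/-- the side length of a block -/
def bd (n G : ℕ) : ℕ := 2 * (ell n / (2 * G))

/-- a block of one parity -/
def kc (n I J G : ℕ) {N : ℕ} (q : Cx N) : Finset (ℕ × ℕ) :=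
  ((Finset.Ico (I + q.1 * ell n) (I + q.1 * ell n + bd n G)) ×ˢ
    (Finset.Ico (J + q.2.1 * ell n) (J + q.2.1 * ell n + bd n G))).filter
      fun m => (m.1 + m.2) % 2 = (q.2.2 : ℕ)

/-- all blocks -/
def allC (n I J G N : ℕ) : Finset (ℕ × ℕ) := (Finset.univ : Finset (Cx N)).biUnion (kc n I J G)

/-- the radius of the window -/
def rad (n : ℕ) : ℕ := 12 * (Nat.log 2 n + 1)

/-- the window -/
def wdw (n I J : ℕ) : Finset (ℕ × ℕ) :=
  (tri n).filter fun m => (I ≤ m.1 + rad n * ell n ∧ m.1 ≤ I + rad n * ell n) ∧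
    (J ≤ m.2 + rad n * ell n ∧ m.2 ≤ J + rad n * ell n)

/-- the rest of the window -/
def rst (n I J G N : ℕ) : Finset (ℕ × ℕ) := wdw n I J \ allC n I J G N

/-- outside the window -/
def otw (n I J : ℕ) : Finset (ℕ × ℕ) := tri n \ wdw n I J

/-- the mean over a finite set -/
noncomputable def cm (A : Finset (ℕ × ℕ)) (y : ℕ × ℕ → ℝ) : ℝ := (∑ m ∈ A, y m) / A.card

/-- the bound for the total energy -/
noncomputable def CB (B : ℝ) : ℝ := 4 * Real.exp (128 * B ^ 2)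

/-- the event of a block -/
def EvC (n I J G : ℕ) {N : ℕ} (B : ℝ) (c : Fin 2) (q : Cx N) (v : ℤ) : Set (Ix → ℝ) :=
  {ξ | |√((kc n I J G q).card : ℝ) * cm (kc n I J G q) (fun m => ξ (c, m)) - v| < 1 / 2} ∩
  {ξ | ∀ K : ℕ, enr n I J B K (kc n I J G q)
      (fun m => ξ (c, m) - cm (kc n I J G q) (fun m => ξ (c, m))) ≤
        8 * ∑ m ∈ kc n I J G q, pr n I J m * Real.exp (4 * B * ab n I J m)}

/-- the event of the rest of the window -/
def EvR (n I J G N : ℕ) (B : ℝ) (c : Fin 2) : Set (Ix → ℝ) :=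
  {ξ | ∀ K : ℕ, enr n I J B K (rst n I J G N) (fun m => sg m * ξ (c, m)) ≤ 2 * CB B}

/-- the event outside the window -/
def EvO (n I J : ℕ) (B : ℝ) (c : Fin 2) : Set (Ix → ℝ) :=
  {ξ | ∀ K : ℕ, enr n I J B K (otw n I J) (fun m => sg m * ξ (c, m)) ≤ 1}

/-- the event of a cell -/
def GdE (n I J G N : ℕ) (B : ℝ) (v : Fin 2 → Cx N → ℤ) : Set (Ix → ℝ) :=
  {ξ | ∀ c, (∀ q, ξ ∈ EvC n I J G B c q (v c q)) ∧ ξ ∈ EvR n I J G N B c}

/-- the weights of the Kostlan-Shub-Smale ensemble -/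
noncomputable def wt (n : ℕ) (m : ℕ × ℕ) : ℝ :=
  √((n.factorial : ℝ) / (m.1.factorial * m.2.factorial * (n - m.1 - m.2).factorial))

/-- the points of a cell -/
noncomputable def px (n I J : ℕ) (u : ℝ) : ℝ :=
  √((I:ℝ) / ((n - I - J : ℕ) : ℝ)) * Real.exp (u / ell n)

noncomputable def py (n I J : ℕ) (v : ℝ) : ℝ :=
  √((J:ℝ) / ((n - I - J : ℕ) : ℝ)) * Real.exp (v / ell n)

/-- the box of a cell -/
def kbox (n I J : ℕ) (B : ℝ) : Set (ℝ × ℝ) :=
  {p | ∃ u v : ℝ, |u| ≤ B ∧ |v| ≤ B ∧ p = (px n I J u, py n I J v)}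

/-- the centres of the cells -/
def ci (n D a : ℕ) : ℕ := n / 4 + a * (D * ell n)

/-- the number of cells in a row -/
def nc (n D : ℕ) : ℕ := ell n / (20 * D)

/-- `C` surrounds `D` -/
def Surr (C D : Set (ℝ × ℝ)) : Prop :=
  ∀ q ∈ D, q ∉ C ∧ Bornology.IsBounded (connectedComponentIn Cᶜ q)

/-- the square annulus with centre `(p, 0)` -/
def ring (p ρ : ℝ) : Set (ℝ × ℝ) :=
  {z | |z.1 - p| ≤ ρ ∧ |z.2| ≤ ρ ∧ (ρ / 2 ≤ |z.1 - p| ∨ ρ / 2 ≤ |z.2|)}

/-- the target field in a square annulus -/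
noncomputable def tgf (p ρ : ℝ) (z : ℝ × ℝ) : ℝ × ℝ :=
  (tp (2 * (z.1 - p) / ρ) (2 * z.2 / ρ) / mg, tq (2 * (z.1 - p) / ρ) (2 * z.2 / ρ) / mg)

/-- a system of squares which realises the order `r` -/
structure Sq (k : ℕ) (r : Fin k → Fin k → Prop) (p ρ : Fin k → ℝ) (B : ℝ) : Prop where
  pos : ∀ a, 0 < ρ a
  bdd : ∀ a, |p a| + ρ a ≤ B
  nest : ∀ a b, r a b → |p b - p a| + ρ b < ρ a / 2
  disj : ∀ a b, a ≠ b → ¬ r a b → ¬ r b a → ρ a + ρ b < |p a - p b|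

end Pool.Agent.Y300.KS
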