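import Pool.Agent.Y300.KS.Stm
import Pool.Agent.K300.Final

/-! Kostlan systems: the main theorem, from the statements of the jobs. -/

open Set MeasureTheory ProbabilityTheory Filter Topology

namespace Pool.Agent.Y300.KS

open Pool.Agent.K300

/-- all conditions on a cell -/
structure CellOk (k : ℕ) (pp ρ : Fin k → ℝ) (n I J : ℕ) (a b : ℕ × ℕ → ℝ) : Prop where
  ok : ∀ x, ∀ z ∈ ring (pp x) (ρ x),
    (1 ≤ (tgf (pp x) (ρ x) z).1 → 0 < loc n I J (tri n) (fun m => sg m * a m) z.1 z.2) ∧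
    ((tgf (pp x) (ρ x) z).1 ≤ -1 → loc n I J (tri n) (fun m => sg m * a m) z.1 z.2 < 0) ∧
    (1 ≤ (tgf (pp x) (ρ x) z).2 → 0 < loc n I J (tri n) (fun m => sg m * b m) z.1 z.2) ∧
    ((tgf (pp x) (ρ x) z).2 ≤ -1 → loc n I J (tri n) (fun m => sg m * b m) z.1 z.2 < 0)

/-- the random field -/
noncomputable def kfield (n : ℕ) (a b : ℕ × ℕ → ℝ) : ℝ × ℝ → ℝ × ℝ :=
  fieldP n (fun m => wt n m * a m) (fun m => wt n m * b m)

/-- a good cell contains the configuration -/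
theorem cell_conf (hconf : S_CONF) (hfld : S_FLD) {k : ℕ} {r : Fin k → Fin k → Prop}
    {pp ρ : Fin k → ℝ} {B : ℝ} (hsq : Sq k r pp ρ B) (hirr : ∀ a, ¬ r a a)
    (htr : ∀ a b c, r a b → r b c → r a c) {n I J : ℕ} (hI : 0 < I) (hJ : 0 < J) (hK : I + J < n)
    {a b : ℕ × ℕ → ℝ} (h : CellOk k pp ρ n I J a b) :
    ∃ C : Fin k → Set (ℝ × ℝ), (∀ x, LimitCycle (kfield n a b) (Neg.neg '' C x)) ∧
      (∀ x, C x ⊆ kbox n I J B) ∧ (∀ x y, x ≠ y → Disjoint (C x) (C y)) ∧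
      (∀ x y, Surr (C x) (C y) ↔ r x y) := by
  have hn : 0 < n := by omega
  have hs : (0:ℝ) < (ell n : ℝ) := by
    have : 0 < ell n := Nat.sqrt_pos.2 hn
    exact_mod_cast this
  have hK' : (0:ℝ) < ((n - I - J : ℕ) : ℝ) := by
    have : 0 < n - I - J := by omega
    exact_mod_cast this
  have hI' : (0:ℝ) < (I:ℝ) := by exact_mod_cast hI
  have hJ' : (0:ℝ) < (J:ℝ) := by exact_mod_cast hJ
  set x₀ : ℝ := √((I:ℝ) / ((n - I - J : ℕ) : ℝ)) with hx₀
  set y₀ : ℝ := √((J:ℝ) / ((n - I - J : ℕ) : ℝ)) with hy₀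
  have hx0 : 0 < x₀ := Real.sqrt_pos.2 (by positivity)
  have hy0 : 0 < y₀ := Real.sqrt_pos.2 (by positivity)
  have hval : ∀ (e : ℕ × ℕ → ℝ) (u v : ℝ), ∃ κ : ℝ, 0 < κ ∧
      ∑ m ∈ tri n, sg m * (wt n m * e m) *
        ((x₀ * Real.exp (u / ell n)) ^ m.1 * (y₀ * Real.exp (v / ell n)) ^ m.2) =
      κ * loc n I J (tri n) (fun m => sg m * e m) u v := by
    intro e u v
    obtain ⟨κ, hκ, hk⟩ := hfld n I J hI hJ hK u v
    refine ⟨κ, hκ, ?_⟩
    rw [← hk]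
    refine Finset.sum_congr rfl fun m _ => ?_
    simp only [px, py]
    rw [← hx₀, ← hy₀]
    ring
  have hc := hconf k r pp ρ B hsq hirr
    (fun x y hxy hyx => hirr x (htr x y x hxy hyx)) (tri n)
    (fun m => sg m * (wt n m * a m)) (fun m => sg m * (wt n m * b m)) x₀ y₀ (ell n) hx0 hy0 hs
  have hc2 := hc ?_
  · obtain ⟨C, h1, h2, h3, h4⟩ := hc2
    refine ⟨C, fun x => ?_, fun x q hq => ?_, h3, h4⟩
    · have h5 := h1 x
      rw [polyF_sg] at h5
      exact limitCycle_neg h5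
    · obtain ⟨u, v, hu, hv, he⟩ := h2 x q hq
      exact ⟨u, v, hu, hv, he⟩
  · intro x z hz
    obtain ⟨g1, g2, g3, g4⟩ := h.ok x z hz
    obtain ⟨κ, hκ, e1⟩ := hval a z.1 z.2
    obtain ⟨κ', hκ', e2⟩ := hval b z.1 z.2
    refine ⟨fun hh => ?_, fun hh => ?_, fun hh => ?_, fun hh => ?_⟩
    · change 0 < ∑ m ∈ tri n, sg m * (wt n m * a m) *
        ((x₀ * Real.exp (z.1 / ell n)) ^ m.1 * (y₀ * Real.exp (z.2 / ell n)) ^ m.2)
      rw [e1]
      exact mul_pos hκ (g1 hh)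
    · change ∑ m ∈ tri n, sg m * (wt n m * a m) *
        ((x₀ * Real.exp (z.1 / ell n)) ^ m.1 * (y₀ * Real.exp (z.2 / ell n)) ^ m.2) < 0
      rw [e1]
      exact mul_neg_of_pos_of_neg hκ (g2 hh)
    · change 0 < ∑ m ∈ tri n, sg m * (wt n m * b m) *
        ((x₀ * Real.exp (z.1 / ell n)) ^ m.1 * (y₀ * Real.exp (z.2 / ell n)) ^ m.2)
      rw [e2]
      exact mul_pos hκ' (g3 hh)
    · change ∑ m ∈ tri n, sg m * (wt n m * b m) *
        ((x₀ * Real.exp (z.1 / ell n)) ^ m.1 * (y₀ * Real.exp (z.2 / ell n)) ^ m.2) < 0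
      rw [e2]
      exact mul_neg_of_pos_of_neg hκ' (g4 hh)

/-- the box of a cell is contained in a rectangle -/
lemma kbox_sub {n I J : ℕ} {B : ℝ} (hn : 0 < n) {q : ℝ × ℝ} :
    q ∈ kbox n I J B → (px n I J (-B) ≤ q.1 ∧ q.1 ≤ px n I J B) ∧
      (py n I J (-B) ≤ q.2 ∧ q.2 ≤ py n I J B) := by
  have hs : (0:ℝ) < (ell n : ℝ) := by
    have : 0 < ell n := Nat.sqrt_pos.2 hn
    exact_mod_cast this
  rintro ⟨u, v, hu, hv, rfl⟩
  obtain ⟨u1, u2⟩ := abs_le.1 hu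
  obtain ⟨v1, v2⟩ := abs_le.1 hv
  have key : ∀ (w : ℝ), 0 ≤ w → ∀ s t : ℝ, s ≤ t → w * Real.exp (s / ell n) ≤
      w * Real.exp (t / ell n) := fun w hw s t hst =>
    mul_le_mul_of_nonneg_left (Real.exp_le_exp.2 (div_le_div_of_nonneg_right hst hs.le)) hw
  exact ⟨⟨key _ (Real.sqrt_nonneg _) _ _ u1, key _ (Real.sqrt_nonneg _) _ _ u2⟩,
    ⟨key _ (Real.sqrt_nonneg _) _ _ v1, key _ (Real.sqrt_nonneg _) _ _ v2⟩⟩

lemma sub_kbox {n I J : ℕ} {B : ℝ} (hI : 0 < I) (hJ : 0 < J) (hK : I + J < n) {q : ℝ × ℝ}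
    (h1 : px n I J (-B) ≤ q.1) (h2 : q.1 ≤ px n I J B)
    (h3 : py n I J (-B) ≤ q.2) (h4 : q.2 ≤ py n I J B) : q ∈ kbox n I J B := by
  have hn : 0 < n := by omega
  have hs : (0:ℝ) < (ell n : ℝ) := by
    have : 0 < ell n := Nat.sqrt_pos.2 hn
    exact_mod_cast this
  have hK' : (0:ℝ) < ((n - I - J : ℕ) : ℝ) := by
    have : 0 < n - I - J := by omega
    exact_mod_cast this
  have hI' : (0:ℝ) < (I:ℝ) := by exact_mod_cast hI
  have hJ' : (0:ℝ) < (J:ℝ) := by exact_mod_cast hJ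
  have key : ∀ (w t : ℝ), 0 < w → w * Real.exp (-B / ell n) ≤ t → t ≤ w * Real.exp (B / ell n) →
      ∃ u, |u| ≤ B ∧ t = w * Real.exp (u / ell n) := by
    intro w t hw ht1 ht2
    have ht : 0 < t := lt_of_lt_of_le (by positivity) ht1
    refine ⟨ell n * Real.log (t / w), ?_, ?_⟩
    · have e1 : Real.exp (-B / ell n) ≤ t / w := by
        rw [le_div_iff₀ hw]; linarith
      have e2 : t / w ≤ Real.exp (B / ell n) := by
        rw [div_le_iff₀ hw]; linarith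
      have f1 := Real.log_le_log (Real.exp_pos _) e1
      have f2 := Real.log_le_log (by positivity : 0 < t / w) e2
      rw [Real.log_exp] at f1 f2
      rw [abs_le]
      constructor
      · have := mul_le_mul_of_nonneg_left f1 hs.le
        rwa [mul_div_cancel₀ _ hs.ne'] at this
      · have := mul_le_mul_of_nonneg_left f2 hs.le
        rwa [mul_div_cancel₀ _ hs.ne'] at this
    · rw [mul_div_cancel_left₀ _ hs.ne', Real.exp_log (by positivity)]
      field_simp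
  obtain ⟨u, hu, e1⟩ := key _ _ (Real.sqrt_pos.2 (div_pos hI' hK')) h1 h2
  obtain ⟨v, hv, e2⟩ := key _ _ (Real.sqrt_pos.2 (div_pos hJ' hK')) h3 h4
  exact ⟨u, v, hu, hv, Prod.ext e1 e2⟩

lemma loc_add (n I J : ℕ) (A : Finset (ℕ × ℕ)) (s t : ℝ) (y z : ℕ × ℕ → ℝ) (u v : ℝ) :
    loc n I J A (fun m => s * (y m + t * z m)) u v =
      s * (loc n I J A y u v + t * loc n I J A z u v) := by
  unfold loc
  rw [Finset.mul_sum, ← Finset.sum_add_distrib, Finset.mul_sum]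
  refine Finset.sum_congr rfl fun m _ => ?_
  ring

/-- the statement for the numbers of configurations -/
def Many (k : ℕ) (r : Fin k → Fin k → Prop) (V : ℝ × ℝ → ℝ × ℝ) (m : ℕ) : Prop :=
  ∃ C : Fin m → Fin k → Set (ℝ × ℝ), (∀ i x, LimitCycle V (C i x)) ∧
    (∀ i x j y, (i, x) ≠ (j, y) → Disjoint (C i x) (C j y)) ∧
    (∀ i x j y, Surr (C i x) (C j y) ↔ i = j ∧ r x y)

lemma nonempty_of_limitCycle {V : ℝ × ℝ → ℝ × ℝ} {C : Set (ℝ × ℝ)} (h : LimitCycle V C) :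
    C.Nonempty := by
  obtain ⟨⟨γ, T, -, -, -, -, rfl⟩, -⟩ := h
  exact range_nonempty _

/-- many disjoint good cells give many configurations -/
theorem many_of_cells (hconf : S_CONF) (hfld : S_FLD) (hext : S_EXT) (hneg : S_NEG) {k : ℕ}
    {r : Fin k → Fin k → Prop} {pp ρ : Fin k → ℝ} {B : ℝ} (hsq : Sq k r pp ρ B)
    (hirr : ∀ a, ¬ r a a) (htr : ∀ a b c, r a b → r b c → r a c) {n : ℕ}
    {a b : ℕ × ℕ → ℝ} (T : Finset (ℕ × ℕ)) (cI cJ : ℕ × ℕ → ℕ)
    (hT : ∀ t ∈ T, 0 < cI t ∧ 0 < cJ t ∧ cI t + cJ t < n ∧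
      CellOk k pp ρ n (cI t) (cJ t) a b)
    (hdis : ∀ t ∈ T, ∀ t' ∈ T, t ≠ t' →
      Disjoint (kbox n (cI t) (cJ t) B) (kbox n (cI t') (cJ t') B)) :
    Many k r (kfield n a b) T.card := by
  have key : ∀ t : T, ∃ C : Fin k → Set (ℝ × ℝ),
      (∀ x, LimitCycle (kfield n a b) (Neg.neg '' C x)) ∧
      (∀ x, C x ⊆ kbox n (cI t) (cJ t) B) ∧ (∀ x y, x ≠ y → Disjoint (C x) (C y)) ∧
      (∀ x y, Surr (C x) (C y) ↔ r x y) := by
    intro t
    obtain ⟨h1, h2, h3, h4⟩ := hT t t.2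
    exact cell_conf hconf hfld hsq hirr htr h1 h2 h3 h4
  choose C h1 h2 h3 h4 using key
  set e : Fin T.card ≃ T := T.equivFin.symm with he
  have hne : ∀ t x, (C t x).Nonempty := by
    intro t x
    obtain ⟨p, q, hq, -⟩ := nonempty_of_limitCycle (h1 t x)
    exact ⟨q, hq⟩
  have hdisC : ∀ (t t' : T) x y, (t, x) ≠ (t', y) → Disjoint (C t x) (C t' y) := by
    intro t t' x y hxy
    by_cases htt : t = t'
    · subst htt
      exact h3 t x y fun hh => hxy (by rw [hh])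
    · refine (hdis t t.2 t' t'.2 fun hh => htt (Subtype.ext hh)).mono (h2 t x) (h2 t' y)
  refine ⟨fun i x => Neg.neg '' C (e i) x, fun i x => h1 _ x, ?_, ?_⟩
  · intro i x j y hij
    have h5 : Disjoint (C (e i) x) (C (e j) y) := by
      refine hdisC _ _ _ _ fun hh => hij ?_
      obtain ⟨g1, g2⟩ := Prod.ext_iff.1 hh
      exact Prod.ext (e.injective g1) g2
    exact (disjoint_image_iff neg_injective).2 h5
  · intro i x j y
    rw [hneg]
    by_cases hij : i = j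
    · subst hij
      simp only [true_and]
      exact h4 _ x y
    · simp only [hij, false_and, iff_false]
      have hT1 := hT (e i) (e i).2
      have hT2 := hT (e j) (e j).2
      have hn : 0 < n := by omega
      have htt : ((e i : T) : ℕ × ℕ) ≠ ((e j : T) : ℕ × ℕ) := fun hh =>
        hij (e.injective (Subtype.ext hh))
      have hd := hdis (e i) (e i).2 (e j) (e j).2 htt
      refine hext _ _ (px n (cI (e i)) (cJ (e i)) (-B)) (px n (cI (e i)) (cJ (e i)) B)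
        (py n (cI (e i)) (cJ (e i)) (-B)) (py n (cI (e i)) (cJ (e i)) B) (hne _ _) ?_ ?_
      · intro q hq
        obtain ⟨⟨g1, g2⟩, ⟨g3, g4⟩⟩ := kbox_sub hn (h2 _ _ hq)
        exact ⟨g1, g2, g3, g4⟩
      · rintro q hq ⟨g1, g2, g3, g4⟩
        exact Set.disjoint_left.1 hd (sub_kbox hT1.1 hT1.2.1 hT1.2.2.1 g1 g2 g3 g4) (h2 _ _ hq)

/-- the good event for the degree `n` -/
def Good {Ω : Type*} (X : Ix → Ω → ℝ) (Φ : ℕ → ℕ → ℕ → Set (Ix → ℝ)) (B c : ℝ) (D n : ℕ) :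
    Set Ω :=
  {ω | (∃ T : Finset (ℕ × ℕ), c * n ≤ T.card ∧
      ∀ t ∈ T, t.1 < nc n D ∧ t.2 < nc n D ∧ ω ∈ ev X (Φ n (ci n D t.1) (ci n D t.2))) ∧
    ∀ I J, Cen n I J → ∀ c : Fin 2, ω ∈ ev X (EvO n I J B c)}

lemma measurableSet_Good {Ω : Type*} [MeasurableSpace Ω] {X : Ix → Ω → ℝ}
    (hX : ∀ i, Measurable (X i)) {Φ : ℕ → ℕ → ℕ → Set (Ix → ℝ)} {B c : ℝ} {D n : ℕ}
    (hΦ : ∀ a b, a < nc n D → b < nc n D → MeasurableSet (Φ n (ci n D a) (ci n D b)))
    (hO : ∀ I J, ∀ c : Fin 2, MeasurableSet (EvO n I J B c)) :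
    MeasurableSet (Good X Φ B c D n) := by
  have e : Good X Φ B c D n =
      (⋃ T : Finset (ℕ × ℕ), ⋃ _ : c * n ≤ T.card, ⋂ t ∈ T,
        {ω | t.1 < nc n D ∧ t.2 < nc n D ∧ ω ∈ ev X (Φ n (ci n D t.1) (ci n D t.2))}) ∩
      ⋂ I : ℕ, ⋂ J : ℕ, ⋂ _ : Cen n I J, ⋂ c : Fin 2, ev X (EvO n I J B c) := by
    ext ω
    simp only [Good, mem_inter_iff, mem_iUnion, mem_iInter, exists_prop]
    rfl
  rw [e]
  refine MeasurableSet.inter ?_ ?_
  · refine MeasurableSet.iUnion fun T => MeasurableSet.iUnion fun _ => ?_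
    refine Finset.measurableSet_biInter T fun t _ => ?_
    by_cases h1 : t.1 < nc n D
    · by_cases h2 : t.2 < nc n D
      · have : {ω | t.1 < nc n D ∧ t.2 < nc n D ∧ ω ∈ ev X (Φ n (ci n D t.1) (ci n D t.2))} =
            ev X (Φ n (ci n D t.1) (ci n D t.2)) := by
          ext ω
          exact ⟨fun h => h.2.2, fun h => ⟨h1, h2, h⟩⟩
        rw [this]
        exact measurableSet_ev hX (hΦ _ _ h1 h2)
      · have : {ω | t.1 < nc n D ∧ t.2 < nc n D ∧
            ω ∈ ev X (Φ n (ci n D t.1) (ci n D t.2))} = ∅ := by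
          ext ω
          exact ⟨fun h => absurd h.2.1 h2, fun h => absurd h (notMem_empty _)⟩
        rw [this]
        exact MeasurableSet.empty
    · have : {ω | t.1 < nc n D ∧ t.2 < nc n D ∧
          ω ∈ ev X (Φ n (ci n D t.1) (ci n D t.2))} = ∅ := by
        ext ω
        exact ⟨fun h => absurd h.1 h1, fun h => absurd h (notMem_empty _)⟩
      rw [this]
      exact MeasurableSet.empty
  · refine MeasurableSet.iInter fun I => MeasurableSet.iInter fun J => ?_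
    refine MeasurableSet.iInter fun _ => MeasurableSet.iInter fun c => ?_
    exact measurableSet_ev hX (hO _ _ _)

/-- the main theorem, with measurable events -/
theorem core.{u} (hconf : S_CONF) (hfld : S_FLD) (hext : S_EXT) (hneg : S_NEG) (hfor : S_FOR)
    (htgt : S_TGT) (hsw : S_SW) (halt : S_ALT) (hnear : S_NEAR) (hdep : S_DEP) (hgd : S_GD.{u})
    (hmany : S_MANY.{u}) (hout : S_OUT.{u}) (hgeo : S_GEO) (hcen : S_CEN)
    (k : ℕ) (r : Fin k → Fin k → Prop) (hirr : ∀ a, ¬ r a a)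
    (htr : ∀ a b c, r a b → r b c → r a c)
    (hfr : ∀ a b c, r a c → r b c → a = b ∨ r a b ∨ r b a) :
    ∃ c : ℝ, 0 < c ∧ ∀ {Ω : Type u} [MeasurableSpace Ω] (P : Measure Ω)
    [IsProbabilityMeasure P] (a : Fin 2 → ℕ × ℕ → Ω → ℝ), (∀ c m, Measurable (a c m)) →
    iIndepFun (fun i : Fin 2 × (ℕ × ℕ) => a i.1 i.2) P →
    (∀ c m, IdentDistrib (a c m) (a c (0, 0)) P P) →
    (∀ c, MemLp (a c (0, 0)) 2 P) → (∀ c, Var[a c (0, 0); P] ≠ 0) →
    ∃ (E : ℕ → Set Ω) (n₀ : ℕ), (∀ n, n₀ ≤ n → MeasurableSet (E n)) ∧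
      (∀ᵐ ω ∂P, ∀ᶠ n : ℕ in atTop, ω ∈ E n) ∧
      ∀ n, n₀ ≤ n → ∀ ω ∈ E n, ∃ m : ℕ, c * n ≤ m ∧
        Many k r (kfield n (fun e => a 0 e ω) (fun e => a 1 e ω)) m := by
  obtain ⟨pp, ρ, B₀, hsq₀⟩ := hfor k r hirr htr hfr
  set B : ℝ := max B₀ 0 with hB
  have hB0 : 0 ≤ B := le_max_right _ _
  have hsq : Sq k r pp ρ B :=
    ⟨hsq₀.pos, fun x => (hsq₀.bdd x).trans (le_max_left _ _), hsq₀.nest, hsq₀.disj⟩
  obtain ⟨V, hV, hVt⟩ := htgt k r pp ρ B hsq hirr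
  obtain ⟨N, w, hw⟩ := hsw V hV B (1 / 8) (by norm_num)
  obtain ⟨h, G, A, n₁, hh, hG, hnr⟩ := hnear N w B hB0
  obtain ⟨p₀, hp₀, hp⟩ := hgd A G N hG
  obtain ⟨D, hD, n₂, hgeoD⟩ := hgeo B hB0
  obtain ⟨c, hc, hcm⟩ := hmany p₀ D hp₀ hD
  refine ⟨c, hc, ?_⟩
  intro Ω _ P _ a hm hind hid hL2 hvar
  obtain ⟨M, σ, X, ν, hσ, hν, hStd, haX⟩ := std_of_iid hm hind hid hL2 hvar
  have := hν
  obtain ⟨n₃, hn₃⟩ := hp P X ν hStd B hB0
  choose! v hv1 hv2 using hnr
  have h1 := hcm P X ν hStd (fun n I J => GdE n I J G N B (v n I J)) (max n₁ n₃)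
    fun n hn I J hC => hn₃ n (le_of_max_le_right hn) I J hC _
      fun c q => hv1 n (le_of_max_le_left hn) I J hC c q
  have h2 := hout P X ν hStd B hB0
  set ε : ℝ := h / (8 * (1 + |M 0| + |M 1|)) with hε
  have hden : 0 < 1 + |M 0| + |M 1| := by positivity
  obtain ⟨n₄, hn₄⟩ := halt B ε hB0 (by positivity)
  refine ⟨fun n => Good X (fun n I J => GdE n I J G N B (v n I J)) B c D n,
    max (max (max n₁ n₃) n₂) (max n₄ 16), ?_, ?_, ?_⟩
  · intro n hn
    have hn13 : max n₁ n₃ ≤ n := (le_max_left _ _).trans ((le_max_left _ _).trans hn)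
    have hn16 : 16 ≤ n := (le_max_right _ _).trans ((le_max_right _ _).trans hn)
    refine measurableSet_Good hStd.meas (fun a b ha hb => ?_) fun I J c => ?_
    · have hC := hcen D hD n hn16 a b ha hb
      exact (hn₃ n (le_of_max_le_right hn13) _ _ hC _
        fun c q => hv1 n (le_of_max_le_left hn13) _ _ hC c q).1.meas
    · exact (hdep n I J G N B c).2.2
  · filter_upwards [h1, h2] with ω g1 g2
    filter_upwards [g1, g2] with n f1 f2
    exact ⟨f1, f2⟩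
  intro n hn ω hω
  obtain ⟨f1, f2⟩ := hω
  obtain ⟨T, hTc, hT⟩ := f1
  have hn1 : n₁ ≤ n := (le_max_left _ _).trans
    ((le_max_left _ _).trans ((le_max_left _ _).trans hn))
  have hn2 : n₂ ≤ n := (le_max_right _ _).trans ((le_max_left _ _).trans hn)
  have hn4 : n₄ ≤ n := (le_max_left _ _).trans ((le_max_right _ _).trans hn)
  have hn16 : 16 ≤ n := (le_max_right _ _).trans ((le_max_right _ _).trans hn)
  have hell : 0 < ell n := Nat.sqrt_pos.2 (by omega)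
  refine ⟨T.card, hTc, many_of_cells hconf hfld hext hneg hsq hirr htr T
    (fun t => ci n D t.1) (fun t => ci n D t.2) ?_ ?_⟩
  · intro t ht
    obtain ⟨e1, e2, e3⟩ := hT t ht
    have hC := hcen D hD n hn16 t.1 t.2 e1 e2
    have c1 := hC.hI
    have c2 := hC.hJ
    have c3 := hC.hK
    refine ⟨by omega, by omega, by omega, ⟨?_⟩⟩
    intro x z hz
    have hzB1 : |z.1| ≤ B := by
      have := hz.1
      have h3 := hsq.bdd x
      have h4 : |z.1| ≤ |z.1 - pp x| + |pp x| := by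
        have := abs_add_le (z.1 - pp x) (pp x)
        rwa [sub_add_cancel] at this
      linarith
    have hzB2 : |z.2| ≤ B := by
      have := hz.2.1
      have h3 := hsq.bdd x
      have := abs_nonneg (pp x)
      linarith
    have hVz := hVt x z hz
    have hwz := hw z.1 z.2 hzB1 hzB2
    rw [Prod.mk.eta, hVz] at hwz
    have halt' := hn₄ n hn4 _ _ hC z.1 z.2 hzB1 hzB2
    have hnz : ∀ c : Fin 2, |loc n (ci n D t.1) (ci n D t.2) (tri n)
        (fun m => sg m * X (c, m) ω) z.1 z.2 -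
        h * ∑ a : Fin N, ∑ b : Fin N, w c a b * Real.exp ((a:ℕ) * z.1 + (b:ℕ) * z.2)| ≤ h / 8 :=
      fun c => hv2 n hn1 _ _ hC (fun i => X i ω) e3 (fun c => f2 _ _ hC c) c z.1 z.2 hzB1 hzB2
    have hloc : ∀ c : Fin 2, loc n (ci n D t.1) (ci n D t.2) (tri n)
        (fun m => sg m * a c m ω) z.1 z.2 = σ c * (loc n (ci n D t.1) (ci n D t.2) (tri n)
        (fun m => sg m * X (c, m) ω) z.1 z.2 +
          M c * loc n (ci n D t.1) (ci n D t.2) (tri n) sg z.1 z.2) := by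
      intro c
      rw [← loc_add]
      congr 1
      funext m
      rw [haX]
      ring
    have hM : ∀ c : Fin 2, |M c * loc n (ci n D t.1) (ci n D t.2) (tri n) sg z.1 z.2| ≤ h / 8 := by
      intro c
      rw [abs_mul]
      have h5 : |M c| ≤ 1 + |M 0| + |M 1| := by
        have := abs_nonneg (M 0)
        have := abs_nonneg (M 1)
        fin_cases c
        · change |M 0| ≤ _; linarith
        · change |M 1| ≤ _; linarith
      calc |M c| * _ ≤ (1 + |M 0| + |M 1|) * ε :=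
            mul_le_mul h5 halt' (abs_nonneg _) hden.le
        _ = h / 8 := by rw [hε]; field_simp
    have hσ0 := hσ 0
    have hσ1 := hσ 1
    have k0 := hnz 0
    have k1 := hnz 1
    have m0 := hM 0
    have m1 := hM 1
    obtain ⟨w0, w1⟩ := hwz
    set L0 := loc n (ci n D t.1) (ci n D t.2) (tri n) (fun m => sg m * X (0, m) ω) z.1 z.2
    set L1 := loc n (ci n D t.1) (ci n D t.2) (tri n) (fun m => sg m * X (1, m) ω) z.1 z.2
    set Q0 := M 0 * loc n (ci n D t.1) (ci n D t.2) (tri n) sg z.1 z.2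
    set Q1 := M 1 * loc n (ci n D t.1) (ci n D t.2) (tri n) sg z.1 z.2
    set S0 := ∑ a : Fin N, ∑ b : Fin N, w 0 a b * Real.exp ((a:ℕ) * z.1 + (b:ℕ) * z.2)
    set S1 := ∑ a : Fin N, ∑ b : Fin N, w 1 a b * Real.exp ((a:ℕ) * z.1 + (b:ℕ) * z.2)
    rw [abs_le] at k0 k1 m0 m1 w0 w1
    have hh0 : 0 < h := by linarith
    simp only [hloc]
    refine ⟨fun hh' => ?_, fun hh' => ?_, fun hh' => ?_, fun hh' => ?_⟩
    · have : 7 / 8 ≤ S0 := by linarith [w0.1]
      have : h * (7 / 8) ≤ h * S0 := mul_le_mul_of_nonneg_left this hh0.le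
      exact mul_pos hσ0 (by linarith [k0.1, m0.1])
    · have : S0 ≤ -(7 / 8) := by linarith [w0.2]
      have : h * S0 ≤ h * -(7 / 8) := mul_le_mul_of_nonneg_left this hh0.le
      exact mul_neg_of_pos_of_neg hσ0 (by linarith [k0.2, m0.2])
    · have : 7 / 8 ≤ S1 := by linarith [w1.1]
      have : h * (7 / 8) ≤ h * S1 := mul_le_mul_of_nonneg_left this hh0.le
      exact mul_pos hσ1 (by linarith [k1.1, m1.1])
    · have : S1 ≤ -(7 / 8) := by linarith [w1.2]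
      have : h * S1 ≤ h * -(7 / 8) := mul_le_mul_of_nonneg_left this hh0.le
      exact mul_neg_of_pos_of_neg hσ1 (by linarith [k1.2, m1.2])
  · intro t ht t' ht' htt
    obtain ⟨e1, e2, -⟩ := hT t ht
    obtain ⟨e1', e2', -⟩ := hT t' ht'
    refine hgeoD n hn2 _ _ _ _ (hcen D hD n hn16 t.1 t.2 e1 e2)
      (hcen D hD n hn16 t'.1 t'.2 e1' e2') ?_
    have hlt : ∀ x y : ℕ, x < y → ci n D x + D * ell n ≤ ci n D y := by
      intro x y hxy
      unfold ci
      have : (x + 1) * (D * ell n) ≤ y * (D * ell n) := Nat.mul_le_mul_right _ hxy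
      have e : (x + 1) * (D * ell n) = x * (D * ell n) + D * ell n := by ring
      omega
    rcases lt_trichotomy t.1 t'.1 with g | g | g
    · exact Or.inl (hlt _ _ g)
    · rcases lt_trichotomy t.2 t'.2 with g' | g' | g'
      · exact Or.inr (Or.inr (Or.inl (hlt _ _ g')))
      · exact absurd (Prod.ext g g') htt
      · exact Or.inr (Or.inr (Or.inr (hlt _ _ g')))
    · exact Or.inr (Or.inl (hlt _ _ g))

end Pool.Agent.Y300.KS
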