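import Pool.Agent.Y300.KS.Bas

/-! Kostlan systems: the statements of the jobs. -/

open Set MeasureTheory ProbabilityTheory Filter Topology

namespace Pool.Agent.Y300.KS

open Pool.Agent.K300

/-! ### plane topology and dynamics -/

/-- WIND: a closed curve which goes once around `c` through the four quadrants has `c` in a bounded
component of its complement -/
def S_WIND : Prop := ∀ (W : ℝ × ℝ → ℝ × ℝ) (z : ℝ → ℝ × ℝ) (c : ℝ × ℝ) (t₁ t₂ t₃ T : ℝ),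
  Continuous W → (∀ t, HasDerivAt z (W (z t)) t) → (∀ t, z (t + T) = z t) →
  0 < t₁ → t₁ < t₂ → t₂ < t₃ → t₃ < T → (∀ t, z t ≠ c) →
  (∀ t ∈ Icc 0 t₁, c.1 ≤ (z t).1 ∧ c.2 ≤ (z t).2) →
  (∀ t ∈ Icc t₁ t₂, c.1 ≤ (z t).1 ∧ (z t).2 ≤ c.2) →
  (∀ t ∈ Icc t₂ t₃, (z t).1 ≤ c.1 ∧ (z t).2 ≤ c.2) →
  (∀ t ∈ Icc t₃ T, (z t).1 ≤ c.1 ∧ c.2 ≤ (z t).2) →
  Bornology.IsBounded (connectedComponentIn (range z)ᶜ c)

/-- RACE: the racetrack theorem with the position of the limit cycle -/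
def S_RACE : Prop := ∀ {S : Finset (ℕ × ℕ)} {A B : ℕ × ℕ → ℝ} {c : ℝ × ℝ}
    {r₀ r₁ r₂ r₃ d₀ d₁ d₂ d₃ l₀ l₁ l₂ l₃ u₀ u₁ u₂ u₃ : ℝ},
    Quad (fun p => polyF S A B (c + p)) r₁ r₂ r₃ u₀ u₁ u₃ →
    Quad (rotW (fun p => polyF S A B (c + p))) d₁ d₂ d₃ r₀ r₁ r₃ →
    Quad (rotW (rotW (fun p => polyF S A B (c + p)))) l₁ l₂ l₃ d₀ d₁ d₃ →
    Quad (rotW (rotW (rotW (fun p => polyF S A B (c + p))))) u₁ u₂ u₃ l₀ l₁ l₃ →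
    ∃ C, LimitCycle (polyF S A B) C ∧ (∀ p ∈ C, p - c ∈ Icc (-l₃, -d₃) (r₃, u₃)) ∧
      (∀ p ∈ C, ¬ (-l₁ < (p - c).1 ∧ (p - c).1 < r₁ ∧ -d₁ < (p - c).2 ∧ (p - c).2 < u₁)) ∧
      Bornology.IsBounded (connectedComponentIn Cᶜ c)

/-- RING: a field with the sign pattern of the target in a square annulus (in exponential
coordinates) has a limit cycle in the annulus, which goes around its centre -/
def S_RING : Prop := ∀ (S : Finset (ℕ × ℕ)) (A A' : ℕ × ℕ → ℝ) (x₀ y₀ s p ρ : ℝ),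
    0 < x₀ → 0 < y₀ → 0 < s → 0 < ρ →
    (∀ z ∈ ring p ρ, (1 ≤ (tgf p ρ z).1 →
        0 < (polyF S A A' (x₀ * Real.exp (z.1 / s), y₀ * Real.exp (z.2 / s))).1) ∧
      ((tgf p ρ z).1 ≤ -1 →
        (polyF S A A' (x₀ * Real.exp (z.1 / s), y₀ * Real.exp (z.2 / s))).1 < 0) ∧
      (1 ≤ (tgf p ρ z).2 →
        0 < (polyF S A A' (x₀ * Real.exp (z.1 / s), y₀ * Real.exp (z.2 / s))).2) ∧
      ((tgf p ρ z).2 ≤ -1 →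
        (polyF S A A' (x₀ * Real.exp (z.1 / s), y₀ * Real.exp (z.2 / s))).2 < 0)) →
    ∃ C, LimitCycle (polyF S A A') C ∧
      (∀ q ∈ C, ∃ z ∈ ring p ρ, q = (x₀ * Real.exp (z.1 / s), y₀ * Real.exp (z.2 / s))) ∧
      Bornology.IsBounded (connectedComponentIn Cᶜ (x₀ * Real.exp (p / s), y₀))

/-- CONF: the configuration of limit cycles in a cell -/
def S_CONF : Prop := ∀ (k : ℕ) (r : Fin k → Fin k → Prop) (pp ρ : Fin k → ℝ) (B : ℝ),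
    Sq k r pp ρ B → (∀ a, ¬ r a a) → (∀ a b, r a b → ¬ r b a) →
    ∀ (S : Finset (ℕ × ℕ)) (A A' : ℕ × ℕ → ℝ) (x₀ y₀ s : ℝ), 0 < x₀ → 0 < y₀ → 0 < s →
    (∀ a, ∀ z ∈ ring (pp a) (ρ a), (1 ≤ (tgf (pp a) (ρ a) z).1 →
        0 < (polyF S A A' (x₀ * Real.exp (z.1 / s), y₀ * Real.exp (z.2 / s))).1) ∧
      ((tgf (pp a) (ρ a) z).1 ≤ -1 →
        (polyF S A A' (x₀ * Real.exp (z.1 / s), y₀ * Real.exp (z.2 / s))).1 < 0) ∧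
      (1 ≤ (tgf (pp a) (ρ a) z).2 →
        0 < (polyF S A A' (x₀ * Real.exp (z.1 / s), y₀ * Real.exp (z.2 / s))).2) ∧
      ((tgf (pp a) (ρ a) z).2 ≤ -1 →
        (polyF S A A' (x₀ * Real.exp (z.1 / s), y₀ * Real.exp (z.2 / s))).2 < 0)) →
    ∃ C : Fin k → Set (ℝ × ℝ), (∀ a, LimitCycle (polyF S A A') (C a)) ∧
      (∀ a, ∀ q ∈ C a, ∃ u v : ℝ, |u| ≤ B ∧ |v| ≤ B ∧
        q = (x₀ * Real.exp (u / s), y₀ * Real.exp (v / s))) ∧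
      (∀ a b, a ≠ b → Disjoint (C a) (C b)) ∧ (∀ a b, Surr (C a) (C b) ↔ r a b)

/-- EXT: curves in a rectangle do not surround curves outside -/
def S_EXT : Prop := ∀ (C D : Set (ℝ × ℝ)) (x₁ x₂ y₁ y₂ : ℝ), D.Nonempty →
    (∀ q ∈ C, x₁ ≤ q.1 ∧ q.1 ≤ x₂ ∧ y₁ ≤ q.2 ∧ q.2 ≤ y₂) →
    (∀ q ∈ D, ¬ (x₁ ≤ q.1 ∧ q.1 ≤ x₂ ∧ y₁ ≤ q.2 ∧ q.2 ≤ y₂)) → ¬ Surr C D

/-- NEG: reflection at the origin -/
def S_NEG : Prop := ∀ C D : Set (ℝ × ℝ), Surr (Neg.neg '' C) (Neg.neg '' D) ↔ Surr C D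

/-- FOR: every finite forest is realised by squares -/
def S_FOR : Prop := ∀ (k : ℕ) (r : Fin k → Fin k → Prop), (∀ a, ¬ r a a) →
    (∀ a b c, r a b → r b c → r a c) → (∀ a b c, r a c → r b c → a = b ∨ r a b ∨ r b a) →
    ∃ (p ρ : Fin k → ℝ) (B : ℝ), Sq k r p ρ B

/-- TGT: continuous target fields -/
def S_TGT : Prop := ∀ (k : ℕ) (r : Fin k → Fin k → Prop) (p ρ : Fin k → ℝ) (B : ℝ),
    Sq k r p ρ B → (∀ a, ¬ r a a) →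
    ∃ V : ℝ × ℝ → ℝ × ℝ, Continuous V ∧ ∀ a, ∀ z ∈ ring (p a) (ρ a), V z = tgf (p a) (ρ a) z

/-- SW: approximation by exponential polynomials -/
def S_SW : Prop := ∀ V : ℝ × ℝ → ℝ × ℝ, Continuous V → ∀ B ε : ℝ, 0 < ε →
    ∃ (N : ℕ) (w : Fin 2 → Fin N → Fin N → ℝ), ∀ u v : ℝ, |u| ≤ B → |v| ≤ B →
      |∑ a : Fin N, ∑ b : Fin N, w 0 a b * Real.exp ((a:ℕ) * u + (b:ℕ) * v) - (V (u, v)).1| ≤ ε ∧
      |∑ a : Fin N, ∑ b : Fin N, w 1 a b * Real.exp ((a:ℕ) * u + (b:ℕ) * v) - (V (u, v)).2| ≤ ε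

/-! ### trinomial probabilities -/

def S_MGF : Prop := ∀ n I J : ℕ, 0 < n → I + J ≤ n → ∀ a b : ℝ, |a| ≤ ell n → |b| ≤ ell n →
    ∑ m ∈ tri n, pr n I J m * Real.exp (sx n I m.1 * a + sx n J m.2 * b) ≤
      Real.exp (4 * (a ^ 2 + b ^ 2))

def S_ABS : Prop := ∀ n I J : ℕ, 0 < n → I + J ≤ n → ∀ t : ℝ, 0 ≤ t → t ≤ ell n →
    ∑ m ∈ tri n, pr n I J m * Real.exp (t * ab n I J m) ≤ 4 * Real.exp (8 * t ^ 2)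

def S_TAIL : Prop := ∀ n I J : ℕ, 0 < n → I + J ≤ n → ∀ t : ℝ, 0 ≤ t → t + 1 ≤ ell n →
    ∑ m ∈ otw n I J, pr n I J m * Real.exp (t * ab n I J m) ≤
      4 * Real.exp (8 * (t + 1) ^ 2) / (n:ℝ) ^ 12

def S_LOW : Prop := ∀ R : ℝ, ∃ c : ℝ, 0 < c ∧ ∃ n₀ : ℕ, ∀ n, n₀ ≤ n → ∀ I J, Cen n I J →
    ∀ m ∈ tri n, |sx n I m.1| ≤ R → |sx n J m.2| ≤ R → c ≤ ell n * sp n I J m

def S_SUP : Prop := ∀ (n I J : ℕ) (A : Finset (ℕ × ℕ)) (y : ℕ × ℕ → ℝ) (B E : ℝ), 0 ≤ B →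
    (∀ K : ℕ, enr n I J B K A y ≤ E) → ∀ u v : ℝ, |u| ≤ B → |v| ≤ B →
    |loc n I J A y u v| ≤ 2 * √E

def S_ENCO : Prop := ∀ (n I J : ℕ) (A : Finset (ℕ × ℕ)) (B : ℝ) (K : ℕ), 0 ≤ B →
    ∑ k ∈ Finset.range K, ∑ l ∈ Finset.range K, ∑ m ∈ A, co n I J B k l m ^ 2 ≤
      ∑ m ∈ A, pr n I J m * Real.exp (4 * B * ab n I J m)

/-- ALT: the alternating sum is small -/
def S_ALT : Prop := ∀ B ε : ℝ, 0 ≤ B → 0 < ε → ∃ n₀ : ℕ, ∀ n, n₀ ≤ n → ∀ I J, Cen n I J →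
    ∀ u v : ℝ, |u| ≤ B → |v| ≤ B → |loc n I J (tri n) sg u v| ≤ ε

/-! ### blocks -/

def S_CARD : Prop := ∀ (n I J G N : ℕ) (q : Cx N), 2 * (kc n I J G q).card = bd n G ^ 2

def S_BLK : Prop := ∀ (G N N₀ : ℕ), 1 ≤ G → ∃ n₀ : ℕ, ∀ n, n₀ ≤ n → ∀ I J, Cen n I J →
    (∀ q : Cx N, N₀ ≤ (kc n I J G q).card ∧ kc n I J G q ⊆ wdw n I J ∧
      (ell n : ℝ) ≤ 2 * G * √(2 * (kc n I J G q).card : ℝ) ∧
      ∀ m ∈ kc n I J G q, |sx n I m.1 - (q.1 : ℕ)| ≤ 1 / G ∧ |sx n J m.2 - (q.2.1 : ℕ)| ≤ 1 / G) ∧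
    (∀ q q' : Cx N, q ≠ q' → Disjoint (kc n I J G q) (kc n I J G q'))

/-- NEAR: in a good cell the field is close to the target -/
def S_NEAR : Prop := ∀ (N : ℕ) (w : Fin 2 → Fin N → Fin N → ℝ) (B : ℝ), 0 ≤ B →
    ∃ (h : ℝ) (G A n₀ : ℕ), 1 ≤ h ∧ 1 ≤ G ∧ ∀ n, n₀ ≤ n → ∀ I J, Cen n I J →
    ∃ v : Fin 2 → Cx N → ℤ, (∀ c q, |v c q| ≤ (A:ℤ)) ∧ ∀ ξ : Ix → ℝ, ξ ∈ GdE n I J G N B v →
      (∀ c, ξ ∈ EvO n I J B c) → ∀ (c : Fin 2) (u v' : ℝ), |u| ≤ B → |v'| ≤ B →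
      |loc n I J (tri n) (fun m => sg m * ξ (c, m)) u v' -
        h * ∑ a : Fin N, ∑ b : Fin N, w c a b * Real.exp ((a:ℕ) * u + (b:ℕ) * v')| ≤ h / 8

/-! ### probabilities -/

/-- PC: the event of a block -/
def S_PC.{u} : Prop := ∀ (A G N : ℕ), 1 ≤ G → ∃ p : ℝ, 0 < p ∧
    ∀ {Ω : Type u} [MeasurableSpace Ω] (P : Measure Ω) [IsProbabilityMeasure P] (X : Ix → Ω → ℝ)
      (ν : Fin 2 → Measure ℝ) [∀ c, IsProbabilityMeasure (ν c)], Std P X ν →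
    ∀ B : ℝ, 0 ≤ B → ∃ n₀ : ℕ, ∀ n, n₀ ≤ n → ∀ I J, Cen n I J → ∀ (c : Fin 2) (q : Cx N) (v : ℤ),
      |v| ≤ (A:ℤ) → p ≤ P.real (ev X (EvC n I J G B c q v))

/-- PR: the event of the rest of the window -/
def S_PR.{u} : Prop := ∀ {Ω : Type u} [MeasurableSpace Ω] (P : Measure Ω) [IsProbabilityMeasure P]
      (X : Ix → Ω → ℝ) (ν : Fin 2 → Measure ℝ) [∀ c, IsProbabilityMeasure (ν c)], Std P X ν →
    ∀ B : ℝ, 0 ≤ B → ∃ n₀ : ℕ, ∀ n, n₀ ≤ n → ∀ I J, Cen n I J → ∀ (G N : ℕ) (c : Fin 2),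
      1 / 2 ≤ P.real (ev X (EvR n I J G N B c))

/-- PO: the event outside the window -/
def S_PO.{u} : Prop := ∀ {Ω : Type u} [MeasurableSpace Ω] (P : Measure Ω) [IsProbabilityMeasure P]
      (X : Ix → Ω → ℝ) (ν : Fin 2 → Measure ℝ) [∀ c, IsProbabilityMeasure (ν c)], Std P X ν →
    ∀ B : ℝ, 0 ≤ B → ∃ n₀ : ℕ, ∀ n, n₀ ≤ n → ∀ I J, Cen n I J → ∀ (c : Fin 2),
      P.real (ev X (EvO n I J B c))ᶜ ≤ 4 * Real.exp (8 * (4 * B + 1) ^ 2) / (n:ℝ) ^ 12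

/-- DEP: measurability and dependence of the events -/
def S_DEP : Prop := ∀ (n I J G N : ℕ) (B : ℝ) (c : Fin 2),
    (∀ (q : Cx N) (v : ℤ), DepOn (({c} : Finset (Fin 2)) ×ˢ kc n I J G q)
      (EvC n I J G B c q v)) ∧
    DepOn (({c} : Finset (Fin 2)) ×ˢ rst n I J G N) (EvR n I J G N B c) ∧
    MeasurableSet (EvO n I J B c)

/-- GD: good cells have a probability bounded from below -/
def S_GD.{u} : Prop := ∀ (A G N : ℕ), 1 ≤ G → ∃ p₀ : ℝ, 0 < p₀ ∧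
    ∀ {Ω : Type u} [MeasurableSpace Ω] (P : Measure Ω) [IsProbabilityMeasure P] (X : Ix → Ω → ℝ)
      (ν : Fin 2 → Measure ℝ) [∀ c, IsProbabilityMeasure (ν c)], Std P X ν →
    ∀ B : ℝ, 0 ≤ B → ∃ n₀ : ℕ, ∀ n, n₀ ≤ n → ∀ I J, Cen n I J → ∀ v : Fin 2 → Cx N → ℤ,
      (∀ c q, |v c q| ≤ (A:ℤ)) →
      DepOn ((Finset.univ : Finset (Fin 2)) ×ˢ wdw n I J) (GdE n I J G N B v) ∧
      p₀ ≤ P.real (ev X (GdE n I J G N B v))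

/-- CHERN: a Chernoff bound -/
def S_CHERN.{u} : Prop := ∀ p : ℝ, 0 < p → ∃ θ : ℝ, 0 < θ ∧ θ < 1 ∧
    ∀ {Ω : Type u} [MeasurableSpace Ω] (P : Measure Ω) [IsProbabilityMeasure P]
      (ι : Type) [Fintype ι] (E : ι → Set Ω), (∀ i, MeasurableSet (E i)) → iIndepSet E P →
      (∀ i, p ≤ P.real (E i)) →
      P.real {ω | ∑ i, (E i).indicator (fun _ => (1:ℝ)) ω < p / 2 * Fintype.card ι} ≤
        θ ^ Fintype.card ι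

/-- CEN: the cells are central -/
def S_CEN : Prop := ∀ D : ℕ, 1 ≤ D → ∀ n, 16 ≤ n → ∀ a b, a < nc n D → b < nc n D →
    Cen n (ci n D a) (ci n D b)

/-- MANY: almost surely there are many good cells, for all large `n` -/
def S_MANY.{u} : Prop := ∀ (p₀ : ℝ) (D : ℕ), 0 < p₀ → 1 ≤ D → ∃ c : ℝ, 0 < c ∧
    ∀ {Ω : Type u} [MeasurableSpace Ω] (P : Measure Ω) [IsProbabilityMeasure P] (X : Ix → Ω → ℝ)
      (ν : Fin 2 → Measure ℝ) [∀ c, IsProbabilityMeasure (ν c)], Std P X ν →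
    ∀ (Φ : ℕ → ℕ → ℕ → Set (Ix → ℝ)) (n₀ : ℕ),
      (∀ n, n₀ ≤ n → ∀ I J, Cen n I J →
        DepOn ((Finset.univ : Finset (Fin 2)) ×ˢ wdw n I J) (Φ n I J) ∧
        p₀ ≤ P.real (ev X (Φ n I J))) →
      ∀ᵐ ω ∂P, ∀ᶠ n : ℕ in atTop, ∃ T : Finset (ℕ × ℕ), c * n ≤ T.card ∧
        ∀ t ∈ T, t.1 < nc n D ∧ t.2 < nc n D ∧ ω ∈ ev X (Φ n (ci n D t.1) (ci n D t.2))

/-- OUT: almost surely the fields outside the windows are small in all cells, for all large `n` -/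
def S_OUT.{u} : Prop := ∀ {Ω : Type u} [MeasurableSpace Ω] (P : Measure Ω)
      [IsProbabilityMeasure P] (X : Ix → Ω → ℝ) (ν : Fin 2 → Measure ℝ)
      [∀ c, IsProbabilityMeasure (ν c)], Std P X ν →
    ∀ B : ℝ, 0 ≤ B → ∀ᵐ ω ∂P, ∀ᶠ n : ℕ in atTop, ∀ I J, Cen n I J → ∀ c : Fin 2,
      ω ∈ ev X (EvO n I J B c)

/-! ### geometry of the cells -/

/-- GEO: the boxes of the cells are disjoint -/
def S_GEO : Prop := ∀ B : ℝ, 0 ≤ B → ∃ D : ℕ, 1 ≤ D ∧ ∃ n₀ : ℕ, ∀ n, n₀ ≤ n →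
    ∀ I J I' J', Cen n I J → Cen n I' J' →
    (I + D * ell n ≤ I' ∨ I' + D * ell n ≤ I ∨ J + D * ell n ≤ J' ∨ J' + D * ell n ≤ J) →
    Disjoint (kbox n I J B) (kbox n I' J' B)

/-- FLD: the random field in a cell -/
def S_FLD : Prop := ∀ n I J : ℕ, 0 < I → 0 < J → I + J < n → ∀ u v : ℝ, ∃ κ : ℝ, 0 < κ ∧
    ∀ a : ℕ × ℕ → ℝ, ∑ m ∈ tri n, wt n m * a m * (px n I J u ^ m.1 * py n I J v ^ m.2) =
      κ * loc n I J (tri n) a u v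

end Pool.Agent.Y300.KS
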