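import Pool.Agent.Y300.KS.Final
import Pool.Agent.Y108.KS.Wind
import Pool.Agent.Y274.KS.Race
import Pool.Agent.Y333.KS.Ring
import Pool.Agent.Y968.KS.Conf
import Pool.Agent.Y32.KS.For
import Pool.Agent.Y32.KS.Low
import Pool.Agent.Y394.KS.Tgt
import Pool.Agent.Y317.KS.Mgf
import Pool.Agent.Y317.KS.Sup
import Pool.Agent.Y839.KS.Blk
import Pool.Agent.Y815.KS.Near
import Pool.Agent.Y484.KS.PC
import Pool.Agent.Y265.KSPro
import Pool.Agent.Y210.KS.GD
import Pool.Agent.Y809.KS.Chern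
import Pool.Agent.Y328.KS.Many
import Pool.Agent.Y67.KS.Geo
import Pool.Agent.Y252.KS.Alt

/-! Kostlan systems: the main theorem. -/

open Set MeasureTheory ProbabilityTheory Filter Topology
open scoped ENNReal

namespace Pool.Agent.Y300.KS

open Pool.Agent.K300

theorem core3.{u} (k : ℕ) (r : Fin k → Fin k → Prop) (hirr : ∀ a, ¬ r a a)
    (htr : ∀ a b c, r a b → r b c → r a c)
    (hfr : ∀ a b c, r a c → r b c → a = b ∨ r a b ∨ r b a) :
    ∃ c : ℝ, 0 < c ∧ ∀ {Ω : Type u} [MeasurableSpace Ω] (P : Measure Ω)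
    [IsProbabilityMeasure P] (a : Fin 2 → ℕ × ℕ → Ω → ℝ), (∀ c m, Measurable (a c m)) →
    iIndepFun (fun i : Fin 2 × (ℕ × ℕ) => a i.1 i.2) P →
    (∀ c m, IdentDistrib (a c m) (a c (0, 0)) P P) →
    (∀ c, MemLp (a c (0, 0)) 2 P) → (∀ c, Var[a c (0, 0); P] ≠ 0) →
    ∃ (E : ℕ → Set Ω) (n₀ : ℕ), (∀ n, n₀ ≤ n → MeasurableSet (E n)) ∧
      (∀ᵐ ω ∂P, ∀ᶠ n : ℕ in atTop, ω ∈ E n) ∧
      ∀ n, n₀ ≤ n → ∀ ω ∈ E n, ∃ m : ℕ, c * n ≤ m ∧
        Many k r (kfield n (fun e => a 0 e ω) (fun e => a 1 e ω)) m := by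
  have hwind : S_WIND := Pool.Agent.Y108.KS.wind_all
  have hrace : S_RACE := Pool.Agent.Y274.KS.race_all hwind
  have hring : S_RING := Pool.Agent.Y333.KS.ring_all hrace
  have hconf : S_CONF := Pool.Agent.Y968.KS.conf_all hring
  have hext : S_EXT := Pool.Agent.Y968.KS.ext_all
  have hneg : S_NEG := Pool.Agent.Y968.KS.neg_all
  have hfor : S_FOR := Pool.Agent.Y32.KS.for_all
  have htgt : S_TGT := Pool.Agent.Y394.KS.tgt_all
  have hsw : S_SW := Pool.Agent.Y394.KS.sw_all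
  have habs : S_ABS := Pool.Agent.Y317.KS.abs_all
  have htail : S_TAIL := Pool.Agent.Y317.KS.tail_all
  have hsup : S_SUP := Pool.Agent.Y317.KS.sup_all
  have halt : S_ALT := Pool.Agent.Y252.KS.alt_all habs htail
  have hfld : S_FLD := Pool.Agent.Y67.KS.fld_all
  have hgeo : S_GEO := Pool.Agent.Y67.KS.geo_all
  have henco : S_ENCO := Pool.Agent.Y317.KS.enco_all
  have hblk : S_BLK := Pool.Agent.Y839.KS.blk_all
  have hlow : S_LOW := Pool.Agent.Y32.KS.low_all habs
  have hnear : S_NEAR := Pool.Agent.Y815.KS.near_all habs hlow hsup hblk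
  have hpc : S_PC.{u} := Pool.Agent.Y484.KS.pc_all.{u} hblk henco
  have hdep : S_DEP := Pool.Agent.Y265.KSPro.dep_all
  have hpr : S_PR.{u} := Pool.Agent.Y265.KSPro.pr_all.{u} habs henco
  have hpo : S_PO.{u} := Pool.Agent.Y265.KSPro.po_all.{u} htail henco
  have hout : S_OUT.{u} := Pool.Agent.Y265.KSPro.out_all.{u} hpo
  have hgd : S_GD.{u} := Pool.Agent.Y210.KS.gd_all.{u} hblk hdep hpc hpr
  have hcen : S_CEN := Pool.Agent.Y809.KS.cen_all
  have hch : S_CHERN.{u} := Pool.Agent.Y809.KS.chern_all.{u}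
  have hmany : S_MANY.{u} := Pool.Agent.Y328.KS.many_all.{u} hch hcen
  exact core.{u} hconf hfld hext hneg hfor htgt hsw halt hnear hdep hgd hmany hout hgeo hcen k r
    hirr htr hfr

/-- the number of limit cycles is at least the number of copies of a single one -/
lemma le_encard_of_many {r : Fin 1 → Fin 1 → Prop} {V : ℝ × ℝ → ℝ × ℝ} {m : ℕ}
    (h : Many 1 r V m) : (m : ℕ∞) ≤ {C | LimitCycle V C}.encard := by
  obtain ⟨C, h1, h2, -⟩ := h
  have hinj : Function.Injective fun i : Fin m => C i 0 := by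
    intro i j hij
    by_contra hne
    have h3 := h2 i 0 j 0 fun hh => hne (Prod.ext_iff.1 hh).1
    obtain ⟨q, hq⟩ := nonempty_of_limitCycle (h1 i 0)
    have hij' : C i 0 = C j 0 := hij
    exact Set.disjoint_left.1 h3 hq (hij' ▸ hq)
  calc (m : ℕ∞) = (Set.univ : Set (Fin m)).encard := by
        rw [Set.encard_univ, ENat.card_eq_coe_fintype_card, Fintype.card_fin]
    _ = (Set.range fun i : Fin m => C i 0).encard := by
        rw [← Set.image_univ, hinj.encard_image]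
    _ ≤ _ := Set.encard_le_encard (by rintro _ ⟨i, rfl⟩; exact h1 i 0)

/-- almost sure statements about measurable events give statements in probability -/
lemma tendsto_compl {Ω : Type*} [MeasurableSpace Ω] {P : Measure Ω} [IsProbabilityMeasure P]
    {E : ℕ → Set Ω} {n₀ : ℕ} (hm : ∀ n, n₀ ≤ n → MeasurableSet (E n))
    (h : ∀ᵐ ω ∂P, ∀ᶠ n : ℕ in atTop, ω ∈ E n) : Tendsto (fun n => P (E n)ᶜ) atTop (𝓝 0) := by
  set F : ℕ → Set Ω := fun N => ⋃ n : ℕ, (E (n + N + n₀))ᶜ with hF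
  have hFm : ∀ N, MeasurableSet (F N) := fun N =>
    MeasurableSet.iUnion fun n => (hm _ (by omega)).compl
  have hanti : Antitone F := by
    intro N N' hN
    refine iUnion_subset fun n => ?_
    refine subset_iUnion_of_subset (n + N' - N) ?_
    have : n + N' - N + N + n₀ = n + N' + n₀ := by omega
    rw [this]
  have hz : P (⋂ N, F N) = 0 := by
    rw [measure_eq_zero_iff_ae_notMem]
    filter_upwards [h] with ω hω
    obtain ⟨N, hN⟩ := eventually_atTop.1 hω
    intro hh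
    have h1 := mem_iInter.1 hh N
    obtain ⟨n, hn⟩ := mem_iUnion.1 h1
    exact hn (hN _ (by omega))
  have ht := tendsto_measure_iInter_atTop (μ := P) (fun N => (hFm N).nullMeasurableSet) hanti
    ⟨0, measure_ne_top _ _⟩
  rw [hz] at ht
  have h2 : Tendsto (fun n : ℕ => P (F (n - n₀))) atTop (𝓝 0) :=
    ht.comp (tendsto_sub_atTop_nat n₀)
  refine tendsto_of_tendsto_of_tendsto_of_le_of_le' tendsto_const_nhds h2
    (Eventually.of_forall fun n => bot_le) ?_
  filter_upwards [eventually_ge_atTop n₀] with n hn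
  refine measure_mono ?_
  refine subset_iUnion_of_subset 0 ?_
  have : 0 + (n - n₀) + n₀ = n := by omega
  rw [this]

/-- the consequences of an almost sure statement -/
lemma conseq {Ω : Type*} [MeasurableSpace Ω] {P : Measure Ω} [IsProbabilityMeasure P]
    {E : ℕ → Set Ω} {n₀ : ℕ} (hm : ∀ n, n₀ ≤ n → MeasurableSet (E n))
    (h : ∀ᵐ ω ∂P, ∀ᶠ n : ℕ in atTop, ω ∈ E n) {f : ℕ → Ω → ℝ≥0∞} {c : ℝ} (hc : 0 ≤ c)
    (hf : ∀ n, n₀ ≤ n → ∀ ω ∈ E n, ENNReal.ofReal (c * n) ≤ f n ω) :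
    (∀ᵐ ω ∂P, ∀ᶠ n : ℕ in atTop, ENNReal.ofReal (c / 2 * n) ≤ f n ω) ∧
    Tendsto (fun n : ℕ => P {ω | f n ω < ENNReal.ofReal (c / 2 * n)}) atTop (𝓝 0) ∧
    (∀ᶠ n : ℕ in atTop, ENNReal.ofReal (c / 2 * n) ≤ ∫⁻ ω, f n ω ∂P) := by
  have hcc : ∀ n : ℕ, ENNReal.ofReal (c / 2 * n) ≤ ENNReal.ofReal (c * n) := by
    intro n
    refine ENNReal.ofReal_le_ofReal ?_
    have : 0 ≤ c * n := by positivity
    linarith
  have ht := tendsto_compl hm h
  refine ⟨?_, ?_, ?_⟩
  · filter_upwards [h] with ω hω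
    filter_upwards [hω, eventually_ge_atTop n₀] with n h1 h2
    exact (hcc n).trans (hf n h2 ω h1)
  · refine tendsto_of_tendsto_of_tendsto_of_le_of_le' tendsto_const_nhds ht
      (Eventually.of_forall fun n => bot_le) ?_
    filter_upwards [eventually_ge_atTop n₀] with n h2
    refine measure_mono fun ω hω => ?_
    intro hE
    exact absurd hω (not_lt.2 ((hcc n).trans (hf n h2 ω hE)))
  · have h3 : ∀ᶠ n : ℕ in atTop, P (E n)ᶜ < 2⁻¹ := ht.eventually (gt_mem_nhds (by simp))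
    filter_upwards [h3, eventually_ge_atTop n₀] with n h4 h2
    have h5 : (2⁻¹ : ℝ≥0∞) ≤ P (E n) := by
      have h6 : P (E n) = 1 - P (E n)ᶜ := by
        have := prob_compl_eq_one_sub (μ := P) (hm n h2).compl
        rwa [compl_compl] at this
      rw [h6]
      calc (2⁻¹ : ℝ≥0∞) = 1 - 2⁻¹ := by rw [ENNReal.one_sub_inv_two]
        _ ≤ _ := tsub_le_tsub_left h4.le 1
    calc ENNReal.ofReal (c / 2 * n)
        = ENNReal.ofReal (c * n) * 2⁻¹ := by
          have e : c * n = (c / 2 * n) * 2 := by ring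
          have e3 : ENNReal.ofReal ((c / 2 * n) * 2) =
              ENNReal.ofReal (c / 2 * n) * ENNReal.ofReal 2 :=
            ENNReal.ofReal_mul (by positivity)
          have : ENNReal.ofReal 2 * 2⁻¹ = 1 := by
            rw [ENNReal.ofReal_ofNat]
            exact ENNReal.mul_inv_cancel (by norm_num) (by norm_num)
          rw [e, e3, mul_assoc, this, mul_one]
      _ ≤ ENNReal.ofReal (c * n) * P (E n) := by gcongr
      _ = ∫⁻ _ in E n, ENNReal.ofReal (c * n) ∂P := by rw [setLIntegral_const]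
      _ ≤ ∫⁻ ω in E n, f n ω ∂P := setLIntegral_mono' (hm n h2) fun ω hω => hf n h2 ω hω
      _ ≤ _ := setLIntegral_le_lintegral _ _

end Pool.Agent.Y300.KS
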